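import Pool.Agent.L7h45.NF.TopMain

/-!
# Fold-free maps between compact complete flat affine manifolds

Let `M` and `N` be compact complete flat affine manifolds of dimension `n`: the quotients of `ℝⁿ` by groups `Γ`
of affine maps, given by the universal coverings `p : ℝⁿ → M`, which are local diffeomorphisms and whose
fibres are the orbits of `Γ`. Let `f : M → N` be a smooth map which induces a surjection, for example an
isomorphism, of the fundamental groups, such that

* the rank of the derivative of `f` is at least `n - 1` at all points,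
* the points at which `f` is a local diffeomorphism are dense in `M`,
* `f` has no folds: near each point, in suitable smooth coordinates of `M` and `N`, the Jacobian determinant
  of `f` is nonnegative.

Then `f` is a limit of diffeomorphisms homotopic to `f`; in particular `M` and `N` are diffeomorphic. So `M`
and `N` (with isomorphic fundamental groups) are diffeomorphic if and only if there is such a map. Without
the condition on the fundamental groups `f` is a limit of smooth coverings homotopic to `f`. The
Auslander conjecture (the groups are virtually polycyclic) is not assumed; for virtually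
polycyclic groups `M` and `N` are diffeomorphic by Baues.

PROOF. One looks for a smooth section `V` of `f* TN` such that the derivative of the Jacobian of `f + ε V`
at `ε = 0` is positive at the singular points of `f`; for small `ε` the perturbed map is a local
diffeomorphism, so a covering map, and by the condition on the fundamental groups a
diffeomorphism. A point at which no such `V` exists lies on a curve of such points, collapsed by `f`, and
these curves would fill a compact set; the neighbouring curves are compact, too, and `f` is monotone, so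
constant on them: but some of them contain regular points.

Project of helper20, with parts by helper8, helper13, helper21, helper38, helper45, helper58, helper81,
helper82 and helper97; tubular neighbourhoods by helper17.
-/

set_option autoImplicit false
set_option linter.unusedVariables false

open Set Filter Topology
open scoped Manifold ContDiff

noncomputable section

namespace Pool.Agent.Results.MP_27f33f_gt.FoldFreeMaps

/-- `ℝⁿ` -/
abbrev R (n : ℕ) : Type := EuclideanSpace ℝ (Fin n)

section defs

variable {n : ℕ} {M N : Type} [TopologicalSpace M] [ChartedSpace (R n) M] [TopologicalSpace N]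
  [ChartedSpace (R n) N]

/-- `f` is a local diffeomorphism at `x` -/
def LocDiff (f : M → N) (x : M) : Prop := IsLocalDiffeomorphAt (𝓡 n) (𝓡 n) ∞ f x

/-- `p : ℝⁿ → M` is a local diffeomorphism onto `M` and its fibres are the orbits of the group `Γ` of affine
maps: `M` is the complete flat affine manifold `ℝⁿ / Γ` -/
structure FlatAffine (Γ : Subgroup (R n ≃ᵃ[ℝ] R n)) (p : R n → M) : Prop where
  surj : Function.Surjective p
  loc : ∀ x, LocDiff (n := n) p x
  fib : ∀ x y, p x = p y ↔ ∃ γ ∈ Γ, γ x = y

/-- the derivative of `f` at `x`, in the preferred charts -/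
def der (f : M → N) (x : M) : R n →L[ℝ] R n := mfderiv (𝓡 n) (𝓡 n) f x

/-- the rank of `f` at `x` is at least `k` -/
def RankAtLeast (k : ℕ) (f : M → N) (x : M) : Prop :=
  ∃ v : Fin k → R n, LinearIndependent ℝ fun i => der (n := n) f x (v i)

/-- `f` has no fold at `x`: there are smooth coordinates `A` of `M` near `x = A z` and `B` of `N` near `f x` in
which the Jacobian determinant of `f` is nonnegative at all points near `z` -/
def NoFold (f : M → N) (x : M) : Prop :=
  ∃ (A : R n → M) (B : N → R n) (z : R n), A z = x ∧ LocDiff (n := n) A z ∧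
    LocDiff (n := n) B (f x) ∧ ∀ᶠ w in 𝓝 z, 0 ≤ (fderiv ℝ (fun v => B (f (A v))) w).det

/-- `f` is smooth, of rank at least `n - 1`, regular on a dense set, without folds -/
structure FoldFree (f : M → N) : Prop where
  smooth : ContMDiff (𝓡 n) (𝓡 n) ∞ f
  rank : ∀ x, RankAtLeast (n := n) (n - 1) f x
  dense : Dense {x | LocDiff (n := n) f x}
  noFold : ∀ x, NoFold (n := n) f x

/-- every neighbourhood of the graph of `f` contains the graph of a covering map onto `N` which is a local
diffeomorphism and homotopic to `f` -/
def LimitOfCoverings (f : C(M, N)) : Prop :=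
  ∀ O : Set (M × N), IsOpen O → (∀ x, (x, f x) ∈ O) →
    ∃ g : C(M, N), IsCoveringMap g ∧ Function.Surjective g ∧ (∀ x, LocDiff (n := n) g x) ∧
      (∀ x, (x, g x) ∈ O) ∧ f.Homotopic g

/-- every neighbourhood of the graph of `f` contains the graph of a diffeomorphism homotopic to `f` -/
def LimitOfDiffeos (f : C(M, N)) : Prop :=
  ∀ O : Set (M × N), IsOpen O → (∀ x, (x, f x) ∈ O) →
    ∃ Φ : Diffeomorph (𝓡 n) (𝓡 n) M N ∞, (∀ x, (x, Φ x) ∈ O) ∧ f.Homotopic ⟨Φ, Φ.continuous⟩

end defs

/-- `f` is onto on fundamental groups: every loop at a point `f x` is homotopic (relative to its end points)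
to the image of a loop at `x` -/
def OntoPi1 {M N : Type} [TopologicalSpace M] [TopologicalSpace N] (f : C(M, N)) : Prop :=
  ∀ (x : M) (γ : Path (f x) (f x)), ∃ δ : Path x x, (δ.map f.continuous).Homotopic γ

/-- `f` is a homotopy equivalence -/
def IsHomotopyEquivalence {M N : Type} [TopologicalSpace M] [TopologicalSpace N] (f : C(M, N)) :
    Prop := ∃ g : C(N, M), (g.comp f).Homotopic (ContinuousMap.id M) ∧
      (f.comp g).Homotopic (ContinuousMap.id N)

open Pool.Agent.Y522 Pool.Agent.Y170.NA in
/-- a local diffeomorphism has no fold -/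
theorem noFold_of_ld {m : ℕ} {X Y : Type} [TopologicalSpace X] [ChartedSpace (R (m + 1)) X]
    [TopologicalSpace Y] [ChartedSpace (R (m + 1)) Y] [IsManifold (𝓡 (m + 1)) ∞ X] (f : X → Y)
    (x : X) (h : LocDiff (n := m + 1) f x) : NoFold (n := m + 1) f x := by
  have h0 : LD (m + 1) (chartAt (R (m + 1)) x : X → R (m + 1)) x := Pool.Agent.Y641.SH.LD_chart x
  obtain ⟨A, hA, hAx, -, -⟩ := h0.exists_inverse
  have h1 : LD (m + 1) (fun z => f (A z)) (chartAt (R (m + 1)) x x) := by
    refine LD.comp_fun ?_ hA
    rw [hAx]
    exact h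
  obtain ⟨B, hB1, hB2, hB3, -⟩ := h1.exists_inverse
  rw [hAx] at hB1
  refine ⟨A, B, chartAt (R (m + 1)) x x, hAx, hA, hB1, ?_⟩
  filter_upwards [hB3.eventually_nhds] with z hz
  have h2 : (fun w => B (f (A w))) =ᶠ[𝓝 z] id := hz
  rw [h2.fderiv_eq, fderiv_id]
  change 0 ≤ LinearMap.det (ContinuousLinearMap.id ℝ (R (m + 1))).toLinearMap
  rw [ContinuousLinearMap.coe_id, LinearMap.det_id]
  norm_num

/-- Let `M = ℝⁿ / Γ₁` and `N = ℝⁿ / Γ₂` be compact complete flat affine manifolds. A fold-free map
`f : M → N` is a limit of smooth coverings homotopic to `f`, of diffeomorphisms if `f` is a homotopy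
equivalence or at least onto on fundamental groups; and `M`, `N` are diffeomorphic if and only if there is
a fold-free map `M → N` onto on fundamental groups. -/
theorem result (n : ℕ) (hn : 1 ≤ n) (M N : Type)
    [TopologicalSpace M] [T2Space M] [CompactSpace M] [ChartedSpace (R n) M] [IsManifold (𝓡 n) ∞ M]
    [TopologicalSpace N] [T2Space N] [CompactSpace N] [ChartedSpace (R n) N] [IsManifold (𝓡 n) ∞ N]
    (Γ₁ Γ₂ : Subgroup (R n ≃ᵃ[ℝ] R n)) (p : R n → M) (q : R n → N)
    (hM : FlatAffine Γ₁ p) (hN : FlatAffine Γ₂ q) :
    (∀ f : C(M, N), FoldFree (n := n) f → LimitOfCoverings (n := n) f) ∧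
    (∀ f : C(M, N), FoldFree (n := n) f → IsHomotopyEquivalence f ∨ OntoPi1 f →
      LimitOfDiffeos (n := n) f) ∧
    (Nonempty (Diffeomorph (𝓡 n) (𝓡 n) M N ∞) ↔
      ∃ f : C(M, N), FoldFree (n := n) f ∧ OntoPi1 f) := by
  obtain ⟨m, rfl⟩ : ∃ m, n = m + 1 := ⟨n - 1, by omega⟩
  have hcM : Continuous p := continuous_iff_continuousAt.2 fun x =>
    (IsLocalDiffeomorphAt.contMDiffAt (hM.loc x)).continuousAt
  have hcN : Continuous q := continuous_iff_continuousAt.2 fun x =>
    (IsLocalDiffeomorphAt.contMDiffAt (hN.loc x)).continuousAt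
  have : ConnectedSpace M := hM.surj.connectedSpace hcM
  have : ConnectedSpace N := hN.surj.connectedSpace hcN
  have rk : ∀ f : C(M, N), FoldFree (n := m + 1) f → ∀ x,
      Pool.Agent.L7h20.NF.RkY (m := m) (f : M → N) x := by
    intro f hf x
    obtain ⟨v, hv⟩ := hf.rank x
    let D : R (m + 1) →ₗ[ℝ] R (m + 1) := (der (n := m + 1) (f : M → N) x).toLinearMap
    have h2 : LinearIndependent ℝ fun i => (⟨D (v i), v i, rfl⟩ : LinearMap.range D) :=
      LinearIndependent.of_comp (LinearMap.range D).subtype hv
    have h3 := h2.fintype_card_le_finrank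
    rw [Fintype.card_fin] at h3
    exact h3
  have main : ∀ f : C(M, N), FoldFree (n := m + 1) f → IsHomotopyEquivalence f ∨ OntoPi1 f →
      LimitOfDiffeos (n := m + 1) f := by
    intro f hf h O hO hfO
    have honto : Pool.Agent.L7h45.NF.OntoPi1 f := by
      rcases h with ⟨g, h1, h2⟩ | h
      · exact Pool.Agent.L7h45.NF.OntoPi1.of_equiv f ⟨f, g, h1, h2⟩ rfl
      · exact h
    refine Pool.Agent.L7h45.NF.closed m M N f ⟨hf.smooth, hf.dense, fun x => ?_⟩ (fun x _ => ?_)
      honto O hO hfO
    · obtain ⟨A, B, z, h1, h2, h3, h4⟩ := hf.noFold x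
      exact ⟨A, B, z, h1, h2, by rw [h1]; exact h3, h4⟩
    · exact rk f hf x
  refine ⟨?_, main, ?_, ?_⟩
  · intro f hf O hO hfO
    have hset : Pool.Agent.L7h20.NF.SettingY (m := m) (f : M → N) := by
      refine ⟨hf.smooth, hf.dense, fun x => ?_⟩
      obtain ⟨A, B, z, h1, h2, h3, h4⟩ := hf.noFold x
      exact ⟨A, B, z, h1, h2, by rw [h1]; exact h3, h4⟩
    have hcomp : IsCompact {x | ¬ LocDiff (n := m + 1) (f : M → N) x} := by
      apply IsClosed.isCompact
      rw [← isOpen_compl_iff]
      have h1 : ({x | ¬ LocDiff (n := m + 1) (f : M → N) x})ᶜ =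
          {x | LocDiff (n := m + 1) (f : M → N) x} := by
        ext x
        simp
      rw [h1]
      exact isOpen_iff_mem_nhds.2 fun x hx => Pool.Agent.Y522.LD.eventually hx
    obtain ⟨F, C, G, h1, h2, h3, h4, h5, h6, h7⟩ := Pool.Agent.L7h45.NF.top_loc (i := (id : M → M))
      IsOpenEmbedding.id (j := (id : N → N)) IsOpenEmbedding.id f (g := (f : M → N)) (fun x => rfl)
      hset (fun x _ => rk f hf x) hcomp (fun x hx => absurd (mem_range_self x) hx) hO hfO
    have hFG : (F : M → N) = G := funext h7
    refine ⟨F, isLocalHomeomorph_iff_isCoveringMap.1 h2, ?_, fun x => ?_, h3, h4⟩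
    · have hop : IsOpen (range F) := h2.isOpenMap.isOpen_range
      have hcl : IsClosed (range F) := (isCompact_range F.continuous).isClosed
      exact range_eq_univ.1 ((IsClopen.eq_univ ⟨hcl, hop⟩ (range_nonempty F)))
    · rw [hFG]
      exact h6 x
  · rintro ⟨Φ⟩
    have hld : ∀ x, LocDiff (n := m + 1) (Φ : M → N) x := fun x => Φ.isLocalDiffeomorph x
    refine ⟨⟨Φ, Φ.continuous⟩, ⟨Φ.contMDiff, fun x => ?_, ?_, fun x => ?_⟩, ?_⟩
    · -- the derivative is bijective
      have hb : Function.Injective (der (n := m + 1) (Φ : M → N) x) :=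
        ((Φ.mfderivToContinuousLinearEquiv (by simp) x).injective)
      let b : Fin (m + 1) → R (m + 1) := EuclideanSpace.basisFun (Fin (m + 1)) ℝ
      have hbl : LinearIndependent ℝ b := (EuclideanSpace.basisFun (Fin (m + 1)) ℝ).toBasis.linearIndependent
      have hbl2 : LinearIndependent ℝ fun i => der (n := m + 1) (Φ : M → N) x (b i) :=
        hbl.map' (der (n := m + 1) (Φ : M → N) x).toLinearMap (LinearMap.ker_eq_bot.2 hb)
      exact ⟨fun i => b (Fin.castLE (by omega) i),
        hbl2.comp _ (Fin.castLE_injective (by omega))⟩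
    · have : {x | LocDiff (n := m + 1) (Φ : M → N) x} = univ := eq_univ_of_forall hld
      show Dense {x | LocDiff (n := m + 1) (Φ : M → N) x}
      rw [this]
      exact dense_univ
    · exact noFold_of_ld Φ x (hld x)
    · exact Pool.Agent.L7h45.NF.OntoPi1.of_equiv (⟨Φ, Φ.continuous⟩ : C(M, N))
        Φ.toHomeomorph.toHomotopyEquiv rfl
  · rintro ⟨f, hf, ho⟩
    obtain ⟨Φ, -, -⟩ := main f hf (Or.inr ho) univ isOpen_univ (fun x => mem_univ _)
    exact ⟨Φ⟩

end Pool.Agent.Results.MP_27f33f_gt.FoldFreeMaps
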