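import Pool.Agent.L7h20.MO.Cover

/-!
# Maps between compact complete flat affine manifolds which are monotone for a cost function

Let `M = ℝⁿ / Γ₁`, `N = ℝⁿ / Γ₂` be compact complete flat affine manifolds, `f : M → N` a smooth map and
`c : M × N → ℝ` a smooth function (the cost). Suppose that the mixed second derivative satisfies
`D_x D_y c (x, f x) (v, Df v) ≤ 0` for all tangent vectors `v` of `M`, and that the functional
`D_x D_y c (x, f x) (v, ·)` is not zero if `Df v = 0`, `v ≠ 0`. Then `f` is a limit of smooth coverings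
homotopic to `f`, and of diffeomorphisms if `f` is a homotopy equivalence. Nothing is assumed about the
rank of `f` or about its fibres: `f` may be constant on open sets.

PROOF. Let `κ : N → ℝᵃ` be an embedding with a smooth retraction `ρ` of a neighbourhood. Move `f` in the
direction of minus the gradient of the cost in the second variable: `V x = - ∇ᵤ c (x, ρ u)` at
`u = κ (f x)`, `G = ρ (κ ∘ f + ε V)`. Let `b (v, u) = - D_x D_y c (x, f x) (v, u)`. Then `b (v, Df v) ≥ 0`, and on
the kernel of `Df` one has `b (v, D_v V) = |b (v, ·)|² > 0`. The pairing of `v` with `DG v` increases with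
`ε` at the places where `Df v` is near `0`, so `DG` is invertible for small `ε > 0`, uniformly by
compactness, and `G` is a covering map homotopic to `f`.

By helper20; end of the proof (coverings) and the definition of the affine manifolds by helper45,
retractions by helper17, calculus after helper8.
-/

set_option autoImplicit false

open Set Filter Topology
open scoped Manifold ContDiff

noncomputable section

namespace Pool.Agent.Results.MP_27f33f_gt.MonotoneForACost

/-- `ℝⁿ` -/
abbrev R (n : ℕ) : Type := EuclideanSpace ℝ (Fin n)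

/-- `ℝⁿ` as the model of `n`-manifolds -/
abbrev model (n : ℕ) : ModelWithCorners ℝ (R n) (R n) := 𝓡 n

section defs

variable {n : ℕ} {M N : Type} [TopologicalSpace M] [ChartedSpace (R n) M] [TopologicalSpace N]
  [ChartedSpace (R n) N]

/-- `g` is a local diffeomorphism at `x` -/
def LocDiff (n : ℕ) [ChartedSpace (R n) M] [ChartedSpace (R n) N] (g : M → N) (x : M) : Prop :=
  IsLocalDiffeomorphAt (model n) (model n) ∞ g x

/-- `Γ` is a group of affine maps of `ℝⁿ`, and `M` is its orbit space by `p`, locally diffeomorphic to `ℝⁿ`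
by `p`: `M` is the complete flat affine manifold `ℝⁿ / Γ` -/
structure FlatAffine (Γ : Subgroup (R n ≃ᵃ[ℝ] R n)) (p : R n → M) : Prop where
  surj : Function.Surjective p
  loc : ∀ x, LocDiff n p x
  fib : ∀ x y, p x = p y ↔ ∃ γ ∈ Γ, γ x = y

/-- the derivative of `f` at `x`, in the preferred charts -/
def der (f : M → N) (x : M) : R n →L[ℝ] R n := mfderiv (model n) (model n) f x

/-- the derivative of the function `φ` at `x` -/
def der1 (φ : M → ℝ) (x : M) : R n →L[ℝ] ℝ := mfderiv (model n) 𝓘(ℝ, ℝ) φ x

/-- the mixed second derivative `D_x D_y c (x, y) (v, u)` -/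
def mixed (c : M → N → ℝ) (x : M) (y : N) (v u : R n) : ℝ :=
  der1 (n := n) (fun x' => der1 (n := n) (c x') y u) x v

/-- `c` is a smooth function on `M × N` -/
def SmoothCost (n : ℕ) [ChartedSpace (R n) M] [ChartedSpace (R n) N] (c : M → N → ℝ) : Prop :=
  ContMDiff ((model n).prod (model n)) 𝓘(ℝ, ℝ) ∞ (fun p : M × N => c p.1 p.2)

/-- `f` is smooth and infinitesimally monotone for the smooth cost `c`, which is nondegenerate on the
kernel of the derivative of `f` -/
structure IsMonotone (n : ℕ) [ChartedSpace (R n) M] [ChartedSpace (R n) N] (c : M → N → ℝ)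
    (f : M → N) : Prop where
  smooth : ContMDiff (model n) (model n) ∞ f
  cost : SmoothCost n c
  le : ∀ (x : M) (v : R n), mixed (n := n) c x (f x) v (der (n := n) f x v) ≤ 0
  nondegenerate : ∀ (x : M) (v : R n), v ≠ 0 → der (n := n) f x v = 0 →
    ∃ u : R n, mixed (n := n) c x (f x) v u ≠ 0

/-- `h` is a diffeomorphism -/
def IsDiffeo (n : ℕ) [ChartedSpace (R n) M] [ChartedSpace (R n) N] (h : M ≃ₜ N) : Prop :=
  ContMDiff (model n) (model n) ∞ h ∧ ContMDiff (model n) (model n) ∞ h.symm

end defs

/-- `f` is onto on fundamental groups: every loop at a point `f x` is homotopic (relative to its end points)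
to the image of a loop at `x` -/
def OntoPi1 {M N : Type} [TopologicalSpace M] [TopologicalSpace N] (f : C(M, N)) : Prop :=
  ∀ (x : M) (γ : Path (f x) (f x)), ∃ δ : Path x x, (δ.map f.continuous).Homotopic γ

/-- `f` is a homotopy equivalence -/
def IsHomotopyEquivalence {M N : Type} [TopologicalSpace M] [TopologicalSpace N] (f : C(M, N)) :
    Prop := ∃ g : C(N, M), (g.comp f).Homotopic (ContinuousMap.id M) ∧
      (f.comp g).Homotopic (ContinuousMap.id N)

/-- Let `M = ℝⁿ / Γ₁` and `N = ℝⁿ / Γ₂` be compact complete flat affine manifolds and `f : M → N` a smooth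
map which is infinitesimally monotone for a smooth cost `c`, nondegenerate on the kernel of `D f`. Then
every neighbourhood of the graph of `f` contains the graph of a smooth covering homotopic to `f`; and of
a diffeomorphism homotopic to `f`, if `f` is a homotopy equivalence or onto on fundamental groups. -/
theorem result (n : ℕ) (hn : 1 ≤ n) (M N : Type)
    [TopologicalSpace M] [T2Space M] [CompactSpace M] [ChartedSpace (R n) M]
    [IsManifold (model n) ∞ M]
    [TopologicalSpace N] [T2Space N] [CompactSpace N] [ChartedSpace (R n) N]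
    [IsManifold (model n) ∞ N]
    (Γ₁ Γ₂ : Subgroup (R n ≃ᵃ[ℝ] R n)) (p : R n → M) (q : R n → N)
    (hM : FlatAffine Γ₁ p) (hN : FlatAffine Γ₂ q) (f : C(M, N)) (c : M → N → ℝ)
    (hc : IsMonotone n c f) (O : Set (M × N)) (hO : IsOpen O) (hfO : ∀ z, (z, f z) ∈ O) :
    (∃ F : C(M, N), IsCoveringMap F ∧ Function.Surjective F ∧ (∀ x, LocDiff n F x) ∧
      (∀ z, (z, F z) ∈ O) ∧ f.Homotopic F) ∧
    (IsHomotopyEquivalence f ∨ OntoPi1 f →
      ∃ h : M ≃ₜ N, IsDiffeo n h ∧ (∀ z, (z, h z) ∈ O) ∧ f.Homotopic ⟨h, h.continuous⟩) := by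
  obtain ⟨m, rfl⟩ : ∃ m, n = m + 1 := ⟨n - 1, by omega⟩
  have hcM : Continuous p := continuous_iff_continuousAt.2 fun x =>
    (IsLocalDiffeomorphAt.contMDiffAt (hM.loc x)).continuousAt
  have hcN : Continuous q := continuous_iff_continuousAt.2 fun x =>
    (IsLocalDiffeomorphAt.contMDiffAt (hN.loc x)).continuousAt
  have : ConnectedSpace M := hM.surj.connectedSpace hcM
  have : ConnectedSpace N := hN.surj.connectedSpace hcN
  have hMo : Pool.Agent.L7h20.MO.Mono (m := m) c f :=
    ⟨hc.smooth, hc.cost, hc.le, hc.nondegenerate⟩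
  refine ⟨Pool.Agent.L7h20.MO.cover f c hMo hO hfO, fun hf => ?_⟩
  have honto : Pool.Agent.L7h45.NF.OntoPi1 f := by
    rcases hf with ⟨g, h1, h2⟩ | h
    · exact Pool.Agent.L7h45.NF.OntoPi1.of_equiv f ⟨f, g, h1, h2⟩ rfl
    · exact h
  obtain ⟨Φ, h1, h2⟩ := Pool.Agent.L7h20.MO.main f c hMo honto hO hfO
  exact ⟨Φ.toHomeomorph, ⟨Φ.contMDiff, Φ.symm.contMDiff⟩, h1, h2⟩

end Pool.Agent.Results.MP_27f33f_gt.MonotoneForACost
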